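import Pool.Agent.W547.KB.Defs
import Pool.Agent.H204R3.GP.HomDefs

/-!
# The motives generated by an abelian variety of CM type over a number field
-/

namespace Pool.Agent.W530.NF

open NumberField Pool.Agent.W547.KB Pool.Agent.H204R3.GP
open scoped TensorProduct

/-- The formula of Shimura and Taniyama for the Frobenius element `π = (π_i)` of an abelian variety
of CM type at a place above a prime number `p` that splits completely in the CM fields; `w` is an
absolute value of the field of complex numbers extending the `p`-adic absolute value of `ℚ` (it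
comes from an embedding of the algebraic numbers into an algebraic closure of `ℚ_p`), and `q` is
the number of elements of the residue field: `φ (π_i)` has the absolute value of `q` if `φ` belongs
to the CM type, and `1` otherwise. -/
structure ShimuraTaniyama (X : CMAV) (w : AbsoluteValue ℂ ℝ) (q : ℕ) (π : X.H1) : Prop where
  mem : ∀ i (φ : (X.factor i).E →+* ℂ), φ ∈ (X.factor i).Φ → w (φ (π i)) = w q
  not_mem : ∀ i (φ : (X.factor i).E →+* ℂ), φ ∉ (X.factor i).Φ → w (φ (π i)) = 1

/-- The power of `X` with factors indexed by the finite set `κ`. -/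
abbrev pow (X : CMAV) (κ : Type) [Fintype κ] : CMAV := ⟨κ × X.I, fun p => X.factor p.2⟩

/-- The inclusion of `H_1(X, ℚ)` into `H_1(X ^ κ, ℚ)` as the factor with index `k`. -/
def inc (X : CMAV) {κ : Type} [Fintype κ] [DecidableEq κ] (k : κ) (x : X.H1) : (pow X κ).H1 :=
  fun p => if p.1 = k then x p.2 else 0

/-- The comparison map `ι` from `H_1(X, ℚ)` to the rational Tate module `V = V_ℓ(X)`, `K = ℚ_ℓ`; it
identifies `V` with `K ⊗ H_1(X, ℚ)`. -/
structure Comparison (X : CMAV) (K V : Type) [Field K] [AddCommGroup V] [Module K V] where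
  ι : X.H1 →+ V
  span_eq : Submodule.span K (Set.range ι) = ⊤
  finrank_eq : Module.finrank K V = Module.finrank ℚ X.H1

/-- `ω` is a Weil pairing: alternating, nondegenerate, and compatible with the action `ρ` of the
Galois group and the cyclotomic character `χ`. -/
structure IsWeilPairing {K V G : Type} [Field K] [AddCommGroup V] [Module K V] [Group G]
    (ρ : Representation K G V) (χ : G →* K) (ω : V →ₗ[K] V →ₗ[K] K) : Prop where
  alternating : ω.IsAlt
  nondegenerate : ω.SeparatingRight
  equivariant : ∀ s u v, ω (ρ s u) (ρ s v) = χ s * ω u v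

/-- The action `ρ` of a group `G` (the Galois group of a number field) on the rational Tate module
`V`, the cyclotomic character `χ` and the Weil pairing `ω` of a polarization. -/
structure GaloisAction (K V : Type) [Field K] [AddCommGroup V] [Module K V] where
  G : Type
  [group : Group G]
  ρ : Representation K G V
  χ : G →* K
  ω : V →ₗ[K] V →ₗ[K] K
  weil : IsWeilPairing ρ χ ω

attribute [instance] GaloisAction.group

/-- The `ℓ`-adic realization of `h_1(X)`. -/
structure Realization (X : CMAV) (K V : Type) [Field K] [AddCommGroup V] [Module K V]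
    extends Comparison X K V, GaloisAction K V

/-- `γ` is a Frobenius element at a place with residue field of `q` elements above a prime number
that splits completely in the CM fields: it acts on `V` by the multiplication by `π = (π_i)`, with
absolute values given by the formula of Shimura and Taniyama, and `χ(γ) = q`. -/
structure IsFrobenius {X : CMAV} {K V : Type} [Field K] [AddCommGroup V] [Module K V]
    (T : Realization X K V) (w : AbsoluteValue ℂ ℝ) (q : ℕ) (π : X.H1) (γ : T.G) : Prop where
  ne_zero : q ≠ 0
  lt_one : w q < 1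
  shimuraTaniyama : ShimuraTaniyama X w q π
  char_eq : T.χ γ = q
  apply_eq : ∀ x : X.H1, T.ρ γ (T.ι x) = T.ι (π * x)

/-- `V` is identified with its dual space by `ω`: the value of `f : V ^ {⊗ s} → V ^ {⊗ t}`, regarded
as a multilinear form in `s + t` variables, at `x_1, ..., x_s, y_1, ..., y_t`. -/
noncomputable def value {X : CMAV} {K V : Type} [Field K] [AddCommGroup V] [Module K V]
    (T : Realization X K V) {s t : ℕ} (f : (⨂[K] _ : Fin s, V) →ₗ[K] (⨂[K] _ : Fin t, V))
    (x : Fin s → X.H1) (y : Fin t → X.H1) : K :=
  pairing T.ω (fun i => T.ι (y i)) (f (PiTensorProduct.tprod K (fun i => T.ι (x i))))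

/-- The linear map `f : V ^ {⊗ s} → V ^ {⊗ t}` is a linear combination, with coefficients in `K`, of
maps given by classes `g i ∈ H^{s + t}(X ^ {s + t}, ℚ)` of the system `Gen B`: of their components in
the tensor product of the `s + t` spaces `H^1(X, ℚ)`. -/
def IsCombination (B : CMPair) {X : CMAV} {K V : Type} [Field K] [AddCommGroup V] [Module K V]
    (T : Realization X K V) {s t : ℕ}
    (f : (⨂[K] _ : Fin s, V) →ₗ[K] (⨂[K] _ : Fin t, V)) : Prop :=
  ∃ (n : ℕ) (a : Fin n → K) (g : Fin n → (pow X (Fin s ⊕ Fin t)).H1 [⋀^Fin s ⊕ Fin t]→ₗ[ℚ] ℚ),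
    (∀ i, Gen B _ _ (g i)) ∧
      ∀ x y, value T f x y = ∑ i, a i * (g i (fun k => inc X k (Sum.elim x y k)) : K)

/-- All homomorphisms `V ^ {⊗ s} (c) → V ^ {⊗ t} (d)` of `ℓ`-adic realizations that commute with a
subgroup of finite index of the Galois group are linear combinations of homomorphisms given by
classes in `Gen B`. -/
def HomsGenerated (B : CMPair) {X : CMAV} {K V : Type} [Field K] [AddCommGroup V] [Module K V]
    (T : Realization X K V) : Prop :=
  ∀ s t c d : ℕ, s + 2 * c = t + 2 * d →
    ∀ f : (⨂[K] _ : Fin s, V) →ₗ[K] (⨂[K] _ : Fin t, V),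
      IsTateHom T.ρ T.χ c d f → IsCombination B T f

end Pool.Agent.W530.NF
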