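import Pool.Agent.W547.KB.Main
import Pool.Agent.W530.NF.Defs
import Pool.Agent.H204R3.GP.Hom

/-!
# Classes fixed by a power of one Frobenius element, on abelian varieties of CM type
-/

set_option linter.unusedSectionVars false

namespace Pool.Agent.W530.NF

open NumberField Pool.Agent.H204R3.CM Pool.Agent.W547.KB Module Equiv
open scoped TensorProduct

noncomputable section

/-! ## Rational forms -/

/-- The coefficients of a form with respect to the complex embeddings, when the form is multiplied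
by a constant under the multiplication of the variables by `π`. -/
theorem prod_eq_of_frob {X : CMAV} {κ : Type} [Fintype κ] [DecidableEq κ] (π : X.H1) (Q : ℂ)
    (F : (κ → X.H1) → ℂ) (c : (κ → Wt X ℂ) → ℂ)
    (hc : ∀ v : κ → X.H1, F v = ∑ I : κ → Wt X ℂ, c I * ∏ l, (I l).2 (v l (I l).1))
    (hF : ∀ v : κ → X.H1, F (fun l => π * v l) = Q * F v)
    (I : κ → Wt X ℂ) (hI : c I ≠ 0) : ∏ l, (I l).2 (π (I l).1) = Q := by
  classical
  let E : X.I → Type := fun i => (X.factor i).E
  let t : X.I → X.I := fun i => i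
  let G := formOf (E := E) t c
  let D : (XX E t ℂ → ℂ) →ₗ[ℂ] (XX E t ℂ → ℂ) :=
    { toFun := fun w x => x.2 (π x.1) * w x
      map_add' := fun a b => by funext x; simp only [Pi.add_apply, mul_add]
      map_smul' := fun a b => by
        funext x
        simp only [Pi.smul_apply, smul_eq_mul, RingHom.id_apply]
        ring }
  have hG : G.compLinearMap (fun _ => D) = Q • G := by
    refine multilinear_ext_span _ _ _ (span_chi (E := E) t) ?_
    intro v hv
    choose w hw using hv
    have hv' : v = fun l => chi E t ℂ (w l) := funext fun l => (hw l).symm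
    rw [hv', MultilinearMap.compLinearMap_apply, _root_.smul_apply, smul_eq_mul]
    have h1 : (fun l => D (chi E t ℂ (w l))) = fun l => chi E t ℂ ((fun l => π * w l) l) := by
      funext l x
      change x.2 (π x.1) * x.2 (w l x.1) = x.2 ((π * w l) x.1)
      rw [← map_mul]
      rfl
    rw [h1, formOf_apply, formOf_apply]
    have h2 := hc (fun l => π * w l)
    rw [hF w, hc w] at h2
    exact h2.symm
  have h3 := DFunLike.congr_fun hG (fun l => Pi.single (I l) (1 : ℂ))
  rw [MultilinearMap.compLinearMap_apply, _root_.smul_apply, smul_eq_mul] at h3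
  have h4 : (fun l => D (Pi.single (I l) (1 : ℂ))) =
      fun l => Pi.single (I l) ((I l).2 (π (I l).1)) := by
    funext l x
    change x.2 (π x.1) * (Pi.single (I l) (1 : ℂ) : XX E t ℂ → ℂ) x = _
    by_cases h : x = I l
    · subst h
      rw [Pi.single_eq_same, Pi.single_eq_same, mul_one]
    · rw [Pi.single_eq_of_ne h, Pi.single_eq_of_ne h, mul_zero]
  rw [h4] at h3
  simp only [G] at h3
  rw [formOf_single, formOf_single, Finset.prod_const_one, mul_one, mul_comm Q] at h3
  exact mul_left_cancel₀ hI h3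

open Classical in
/-- If the valuations are those given by the theorem of Shimura and Taniyama, each non-zero
coefficient belongs to a balanced family of embeddings. -/
theorem balanced_of_prod {X : CMAV} {κ : Type} [Fintype κ] (w : AbsoluteValue ℂ ℝ)
    (q : ℕ) (hq : q ≠ 0) (hw : w q < 1) (π : X.H1)
    (hπ : ShimuraTaniyama X w q π)
    (N m : ℕ) (hN : N ≠ 0) (hm : Fintype.card κ = 2 * m) (I : κ → Wt X ℂ)
    (h : ∏ l, (I l).2 ((π ^ N) (I l).1) = (q : ℂ) ^ (m * N)) :
    ∑ l, (if (I l).2 ∈ (X.factor (I l).1).Φ then (1 : ℤ) else -1) = 0 := by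
  have hq0 : 0 < w q := w.pos (by exact_mod_cast hq)
  have h1 := congrArg w h
  rw [map_prod, map_pow] at h1
  have h2 : ∀ l, w ((I l).2 ((π ^ N) (I l).1)) =
      w q ^ (if (I l).2 ∈ (X.factor (I l).1).Φ then N else 0) := by
    intro l
    rw [Pi.pow_apply, map_pow, map_pow]
    split_ifs with hl
    · rw [hπ.mem _ _ hl]
    · rw [hπ.not_mem _ _ hl, one_pow, pow_zero]
  rw [Finset.prod_congr rfl fun l _ => h2 l, Finset.prod_pow_eq_pow_sum] at h1
  have h3 := pow_right_injective₀ hq0 hw.ne h1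
  rw [Finset.sum_ite, Finset.sum_const, Finset.sum_const_zero, add_zero, smul_eq_mul] at h3
  have h4 := Nat.eq_of_mul_eq_mul_right (Nat.pos_of_ne_zero hN) h3
  have h5 := Finset.card_filter_add_card_filter_not (s := (Finset.univ : Finset κ))
    (fun l => (I l).2 ∈ (X.factor (I l).1).Φ)
  rw [Finset.card_univ, hm] at h5
  rw [Finset.sum_ite, Finset.sum_const, Finset.sum_const, nsmul_eq_mul, nsmul_eq_mul]
  have h6 : (Finset.univ.filter fun l => ¬ (I l).2 ∈ (X.factor (I l).1).Φ).card = m := by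
    omega
  rw [h4, h6]
  ring

/-- A rational class fixed by a power of the Frobenius element is generated. -/
theorem gen_of_frob (B : CMPair) (X : CMAV) {κ : Type} [Finite κ] (w : AbsoluteValue ℂ ℝ)
    (q : ℕ) (hq : q ≠ 0) (hw : w q < 1) (π : X.H1)
    (hπ : ShimuraTaniyama X w q π)
    (N m : ℕ) (hN : N ≠ 0) (hm : Nat.card κ = 2 * m) (f : X.H1 [⋀^κ]→ₗ[ℚ] ℚ)
    (hf : ∀ v : κ → X.H1, f (fun k => π ^ N * v k) = (q : ℚ) ^ (m * N) * f v) : Gen B X κ f := by
  classical
  have := Fintype.ofFinite κ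
  rw [Nat.card_eq_fintype_card] at hm
  rcases isEmpty_or_nonempty κ with hκ | ⟨⟨k0⟩⟩
  · exact Gen.unit f
  rcases isEmpty_or_nonempty X.I with hI | hI
  · have h1 : f = 0 := by
      ext v
      have h2 : v k0 = 0 := by
        funext i
        exact (hI.false i).elim
      rw [f.map_coord_zero k0 h2]
      rfl
    rw [h1]
    exact Gen.zero X κ
  obtain ⟨L, _, _, _, _, j, hj'⟩ := exists_cm (X.prod (single B))
  have hj : ∀ i, ∀ ψ : (X.factor i).E →+* ℂ, ∃ φ : (X.factor i).E →+* L, j.comp φ = ψ :=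
    fun i => hj' (Sum.inl i)
  obtain ⟨ι, -⟩ := hj' (Sum.inr ()) (Classical.choice inferInstance)
  apply gen_of_LSp (L := L)
  obtain ⟨c, hc⟩ := form_coeff (E := fun i : X.I => (X.factor i).E) (fun i : X.I => i) j hj
    f.toMultilinearMap
  have hmono : ∀ I : κ → Wt X L, c I ≠ 0 → mono I ∈ LSp B L X κ := by
    intro I hI
    have h1 : Balanced (fun k => St j (I k)) := by
      intro σ
      let τ : L →+* ℂ := j.comp (σ : L →+* L)
      have hτ : ∀ i, ∀ ψ : (X.factor i).E →+* ℂ, ∃ φ : (X.factor i).E →+* L, τ.comp φ = ψ := by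
        intro i ψ
        obtain ⟨φ, rfl⟩ := hj i ψ
        refine ⟨σ.symm • φ, RingHom.ext fun x => ?_⟩
        change j (σ (σ.symm (φ x))) = j (φ x)
        rw [AlgEquiv.apply_symm_apply]
      let e : (κ → Wt X L) ≃ (κ → Wt X ℂ) := Equiv.arrowCongr (Equiv.refl κ)
        (xEquiv (E := fun i : X.I => (X.factor i).E) (fun i : X.I => i) τ hτ)
      have hcc : ∀ v : κ → X.H1, ((f v : ℚ) : ℂ) =
          ∑ I' : κ → Wt X ℂ, τ (c (e.symm I')) * ∏ l, (I' l).2 (v l (I' l).1) := by
        intro v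
        have h2 := congrArg τ (hc v)
        rw [map_ratCast, map_sum] at h2
        refine h2.trans ?_
        refine Fintype.sum_equiv e _ _ fun I => ?_
        rw [map_mul, map_prod, Equiv.symm_apply_apply]
        rfl
      have hF : ∀ v : κ → X.H1, ((f (fun l => π ^ N * v l) : ℚ) : ℂ) =
          (q : ℂ) ^ (m * N) * ((f v : ℚ) : ℂ) := by
        intro v
        rw [hf v]
        push_cast
        rfl
      have h3 := prod_eq_of_frob (π ^ N) ((q : ℂ) ^ (m * N)) (fun v => ((f v : ℚ) : ℂ))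
        (fun I' => τ (c (e.symm I'))) hcc hF (e I) (by
          rw [Equiv.symm_apply_apply]
          exact fun h0 => hI ((map_eq_zero τ).1 h0))
      exact balanced_of_prod w q hq hw π hπ N m hN hm (e I) h3
    exact alg_of_balanced ι j _ κ rfl (fun k => St j (I k)) (fun k => isHalf_St j (I k)) h1 X I
      (fun k => rfl)
  have hsum : ((Fintype.card (Perm κ) : ℕ) : L) • (fun v : κ → X.H1 => ((f v : ℚ) : L)) =
      ∑ I : κ → Wt X L, c I • mono I := by
    funext v
    rw [Finset.sum_apply, Pi.smul_apply, smul_eq_mul]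
    have h1 : ∀ σ : Perm κ, ((f v : ℚ) : L) = ((Perm.sign σ : ℤ) : L) *
        ∑ I : κ → Wt X L, c I * ∏ k, ev (v (σ k)) (I k) := by
      intro σ
      have h2 : ((f (fun k => v (σ k)) : ℚ) : L) =
          ∑ I : κ → Wt X L, c I * ∏ k, ev (v (σ k)) (I k) := hc (fun k => v (σ k))
      rw [← h2]
      have h3 : f (fun k => v (σ k)) = Perm.sign σ • f v := f.map_perm v σ
      rw [h3, Units.smul_def, zsmul_eq_mul, Rat.cast_mul, Rat.cast_intCast, ← mul_assoc,
        ← Int.cast_mul, ← Units.val_mul, Int.units_mul_self, Units.val_one, Int.cast_one, one_mul]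
    have h4 : ((Fintype.card (Perm κ) : ℕ) : L) * ((f v : ℚ) : L) =
        ∑ σ : Perm κ, ((Perm.sign σ : ℤ) : L) *
          ∑ I : κ → Wt X L, c I * ∏ k, ev (v (σ k)) (I k) := by
      rw [← Finset.sum_congr rfl (fun σ _ => h1 σ), Finset.sum_const, Finset.card_univ,
        nsmul_eq_mul]
    rw [h4]
    simp only [Finset.mul_sum]
    rw [Finset.sum_comm]
    refine Finset.sum_congr rfl fun I _ => ?_
    rw [Pi.smul_apply, smul_eq_mul, mono_apply, Finset.mul_sum]
    refine Finset.sum_congr rfl fun σ _ => ?_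
    ring
  have h5 : ((Fintype.card (Perm κ) : ℕ) : L) • (fun v : κ → X.H1 => ((f v : ℚ) : L)) ∈
      LSp B L X κ := by
    rw [hsum]
    refine Submodule.sum_mem _ fun I _ => ?_
    by_cases hI : c I = 0
    · rw [hI, zero_smul]
      exact Submodule.zero_mem _
    · exact Submodule.smul_mem _ _ (hmono I hI)
  have hne : ((Fintype.card (Perm κ) : ℕ) : L) ≠ 0 := Nat.cast_ne_zero.2 Fintype.card_ne_zero
  have h6 := Submodule.smul_mem _ (((Fintype.card (Perm κ) : ℕ) : L))⁻¹ h5
  rwa [smul_smul, inv_mul_cancel₀ hne, one_smul] at h6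

/-! ## Forms with values in an extension of `ℚ` -/

/-- An alternating form with values in a field `K` of characteristic zero on a finite dimensional
rational vector space is a combination of rational forms with linearly independent coefficients. -/
theorem exists_decomp {W K : Type} [AddCommGroup W] [Module ℚ W] [Module.Finite ℚ W] [Field K]
    [Algebra ℚ K] {κ : Type} [Finite κ] (f : W [⋀^κ]→ₗ[ℚ] K) :
    ∃ (n : ℕ) (c : Fin n → K) (g : Fin n → W [⋀^κ]→ₗ[ℚ] ℚ), LinearIndependent ℚ c ∧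
      ∀ v, f v = ∑ i, g i v • c i := by
  classical
  have := Fintype.ofFinite κ
  let b := Module.finBasis ℚ W
  let T : Submodule ℚ K := Submodule.span ℚ
    (Set.range fun r : κ → Fin (finrank ℚ W) => f (fun l => b (r l)))
  have hT : ∀ v, f v ∈ T := by
    intro v
    have h3 : v = fun l => ∑ s, b.repr (v l) s • b s := by
      funext l
      exact (b.sum_repr (v l)).symm
    rw [h3]
    change f.toMultilinearMap _ ∈ T
    rw [MultilinearMap.map_sum]
    refine Submodule.sum_mem _ fun r _ => ?_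
    rw [MultilinearMap.map_smul_univ]
    exact Submodule.smul_mem _ _ (Submodule.subset_span ⟨r, rfl⟩)
  have hfin : Module.Finite ℚ T := Module.Finite.span_of_finite ℚ (Set.finite_range _)
  let e := Module.finBasis ℚ T
  refine ⟨_, fun i => (e i : K), fun i => (e.coord i).compAlternatingMap (f.codRestrict T hT),
    ?_, fun v => ?_⟩
  · exact e.linearIndependent.map' T.subtype T.ker_subtype
  · have h1 := congrArg (T.subtype) (e.sum_repr (f.codRestrict T hT v))
    rw [map_sum] at h1
    refine h1.symm.trans ?_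
    refine Finset.sum_congr rfl fun i _ => ?_
    rw [map_smul]
    rfl

theorem span_of_frob (B : CMPair) (X : CMAV) {K : Type} [Field K] [Algebra ℚ K] {κ : Type}
    [Finite κ] (w : AbsoluteValue ℂ ℝ)
    (q : ℕ) (hq : q ≠ 0) (hw : w q < 1) (π : X.H1)
    (hπ : ShimuraTaniyama X w q π)
    (N m : ℕ) (hN : N ≠ 0) (hm : Nat.card κ = 2 * m) (f : X.H1 [⋀^κ]→ₗ[ℚ] K)
    (hf : ∀ v : κ → X.H1, f (fun k => π ^ N * v k) = (q : K) ^ (m * N) * f v) :
    ∃ (n : ℕ) (c : Fin n → K) (g : Fin n → X.H1 [⋀^κ]→ₗ[ℚ] ℚ), (∀ i, Gen B X κ (g i)) ∧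
      ∀ v, f v = ∑ i, g i v • c i := by
  obtain ⟨n, c, g, hc, hg⟩ := exists_decomp f
  refine ⟨n, c, g, fun i => ?_, hg⟩
  refine gen_of_frob B X w q hq hw π hπ N m hN hm (g i) fun v => ?_
  have h1 : ∑ i, (g i (fun k => π ^ N * v k) - (q : ℚ) ^ (m * N) * g i v) • c i = 0 := by
    simp only [sub_smul, Finset.sum_sub_distrib]
    rw [← hg, hf v, hg v, Finset.mul_sum, sub_eq_zero]
    refine Finset.sum_congr rfl fun i _ => ?_
    rw [mul_smul]
    rw [Algebra.smul_def ((q : ℚ) ^ (m * N)), map_pow, map_natCast]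
  have h2 := Fintype.linearIndependent_iff.1 hc _ h1 i
  linarith [h2]

/-! ## The Galois group -/

theorem exists_pow_mem {G : Type} [Group G] (H : Subgroup G) (hH : H.FiniteIndex) (γ : G) :
    ∃ N : ℕ, N ≠ 0 ∧ γ ^ N ∈ H := by
  obtain ⟨N, h1, -, h3⟩ := Subgroup.exists_pow_mem_of_index_ne_zero
    (Subgroup.FiniteIndex.index_ne_zero (H := H)) γ
  exact ⟨N, Nat.pos_iff_ne_zero.1 h1, h3⟩

theorem pow_apply {X : CMAV} {K V : Type} [Field K] [AddCommGroup V] [Module K V] {π : X.H1}
    {G : Type} [Group G] (ι : X.H1 →+ V) (ρ : Representation K G V) (γ : G)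
    (hγ : ∀ x : X.H1, ρ γ (ι x) = ι (π * x)) (N : ℕ) (x : X.H1) :
    ρ (γ ^ N) (ι x) = ι (π ^ N * x) := by
  induction N generalizing x with
  | zero => simp
  | succ N ih => rw [pow_succ', map_mul, Module.End.mul_apply, ih, hγ, pow_succ', mul_assoc]

/-! ## Homomorphisms -/

/-- The projection onto the factor with index `k`. -/
def prj (X : CMAV) {κ : Type} [Fintype κ] (k : κ) : (pow X κ).H1 →ₗ[ℚ] X.H1 where
  toFun v := fun i => v (k, i)
  map_add' _ _ := rfl
  map_smul' _ _ := rfl

theorem prj_inc (X : CMAV) {κ : Type} [Fintype κ] [DecidableEq κ] (k k' : κ) (x : X.H1) :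
    prj X k (inc X k' x) = if k = k' then x else 0 := by
  funext i
  change (if (k, i).1 = k' then x (k, i).2 else 0) = _
  by_cases h : k = k'
  · rw [if_pos h, if_pos h]
  · rw [if_neg h, if_neg h]
    rfl

/-- A multilinear form in `κ` variables on `V`, multiplied by a constant by the Frobenius
element, is a combination of components of generated classes on `X ^ κ`. -/
theorem multilinear (B : CMPair) (X : CMAV) {K V : Type} [Field K] [Algebra ℚ K] [AddCommGroup V]
    [Module K V] (ι : X.H1 →+ V)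
    (w : AbsoluteValue ℂ ℝ) (q : ℕ) (hq : q ≠ 0) (hw : w q < 1) (π : X.H1)
    (hπ : ShimuraTaniyama X w q π) {κ : Type} [Fintype κ] [DecidableEq κ]
    (N m : ℕ) (hN : N ≠ 0) (hm : Nat.card κ = 2 * m)
    (A : MultilinearMap K (fun _ : κ => V) K)
    (hA : ∀ x : κ → X.H1, A (fun k => ι (π ^ N * x k)) =
      (q : K) ^ (m * N) * A (fun k => ι (x k))) :
    ∃ (n : ℕ) (c : Fin n → K) (g : Fin n → (pow X κ).H1 [⋀^κ]→ₗ[ℚ] ℚ),
      (∀ i, Gen B (pow X κ) κ (g i)) ∧
      ∀ x : κ → X.H1, A (fun k => ι (x k)) = ∑ i, g i (fun k => inc X k (x k)) • c i := by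
  classical
  let _ : Module ℚ V := Module.compHom V (algebraMap ℚ K)
  have : IsScalarTower ℚ K V := ⟨fun a b v => by
    rw [Algebra.smul_def, mul_smul]
    rfl⟩
  let ιl : X.H1 →ₗ[ℚ] V := ι.toRatLinearMap
  let Φ₀ : MultilinearMap ℚ (fun _ : κ => (pow X κ).H1) K :=
    (A.restrictScalars ℚ).compLinearMap (fun k => ιl.comp (prj X k))
  let F := MultilinearMap.alternatization Φ₀
  have hFa : ∀ v, F v = ∑ σ : Perm κ, ((Perm.sign σ : ℤ) : K) *
      A (fun k => ι (prj X k (v (σ k)))) := by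
    intro v
    simp only [F]
    rw [MultilinearMap.alternatization_apply]
    refine Finset.sum_congr rfl fun σ _ => ?_
    rw [Units.smul_def, zsmul_eq_mul]
    rfl
  let πY : (pow X κ).H1 := fun p => π p.2
  have hπY : ShimuraTaniyama (pow X κ) w q πY :=
    ⟨fun p φ hφ => hπ.mem p.2 φ hφ, fun p φ hφ => hπ.not_mem p.2 φ hφ⟩
  have hF : ∀ v : κ → (pow X κ).H1, F (fun k => πY ^ N * v k) = (q : K) ^ (m * N) * F v := by
    intro v
    rw [hFa, hFa, Finset.mul_sum]
    refine Finset.sum_congr rfl fun σ _ => ?_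
    have h1 : (fun k => ι (prj X k (πY ^ N * v (σ k)))) =
        fun k => ι (π ^ N * prj X k (v (σ k))) := rfl
    rw [h1, hA]
    ring
  obtain ⟨n, c, g, hg, h⟩ := span_of_frob B (pow X κ) w q hq hw πY hπY N m hN hm F hF
  refine ⟨n, c, g, hg, fun x => ?_⟩
  rw [← h, hFa, Finset.sum_eq_single 1]
  · simp only [Perm.sign_one, Units.val_one, Int.cast_one, one_mul, Perm.coe_one, id_eq]
    congr 1
    funext k
    rw [prj_inc, if_pos rfl]
  · intro σ _ hσ
    obtain ⟨k, hk⟩ : ∃ k, σ k ≠ k := by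
      by_contra hcon
      rw [not_exists] at hcon
      exact hσ (Equiv.ext fun k => not_not.1 (hcon k))
    have h2 : A (fun k => ι (prj X k (inc X (σ k) (x (σ k))))) = 0 := by
      refine A.map_coord_zero k ?_
      rw [prj_inc, if_neg (Ne.symm hk), map_zero]
    rw [h2, mul_zero]
  · intro h'
    exact absurd (Finset.mem_univ _) h'

open Pool.Agent.H204R3.GP in
theorem homs (B : CMPair) (X : CMAV) {K V : Type} [Field K] [Algebra ℚ K] [AddCommGroup V]
    [Module K V] (T : Realization X K V) (w : AbsoluteValue ℂ ℝ) (q : ℕ) (π : X.H1) (γ : T.G)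
    (hT : IsFrobenius T w q π γ) : HomsGenerated B T := by
  classical
  intro s t c d hst f hf
  have hfin : FiniteDimensional K V := by
    let b := Module.finBasis ℚ X.H1
    refine ⟨⟨Finset.univ.image fun i => T.ι (b i), ?_⟩⟩
    rw [eq_top_iff, ← T.span_eq, Submodule.span_le]
    rintro _ ⟨x, rfl⟩
    rw [← b.sum_repr x, map_sum]
    refine Submodule.sum_mem _ fun i _ => ?_
    let _ : Module ℚ V := Module.compHom V (algebraMap ℚ K)
    have h1 : T.ι (b.repr x i • b i) = (algebraMap ℚ K (b.repr x i)) • T.ι (b i) :=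
      T.ι.toRatLinearMap.map_smul (b.repr x i) (b i)
    rw [h1]
    refine Submodule.smul_mem _ _ (Submodule.subset_span ?_)
    simp
  obtain ⟨m, hm⟩ : ∃ m, s + t = 2 * m := ⟨(s + t) / 2, by omega⟩
  have hmc : t + d = m + c := by omega
  have hcard : Nat.card (Fin s ⊕ Fin t) = 2 * m := by
    rw [Nat.card_eq_fintype_card, Fintype.card_sum, Fintype.card_fin, Fintype.card_fin, hm]
  obtain ⟨Δ, hΔ, hf⟩ := hf
  obtain ⟨N, hN, hNΔ⟩ := exists_pow_mem Δ hΔ γ
  have hA : ∀ x : Fin s ⊕ Fin t → X.H1,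
      Pool.Agent.H204R3.GP.formOf T.ω f (fun k => T.ι (π ^ N * x k)) =
      (q : K) ^ (m * N) * Pool.Agent.H204R3.GP.formOf T.ω f (fun k => T.ι (x k)) := by
    intro x
    rw [Pool.Agent.H204R3.GP.formOf_apply, Pool.Agent.H204R3.GP.formOf_apply]
    have h2 := hf _ hNΔ (PiTensorProduct.tprod K (fun i => T.ι (x (Sum.inl i))))
    rw [map_smul, PiTensorProduct.map_tprod] at h2
    have h3 := congrArg (pairing T.ω (fun i => T.ρ (γ ^ N) (T.ι (x (Sum.inr i))))) h2
    rw [map_smul, map_smul, pairing_map T.ρ T.χ T.ω T.weil.equivariant, smul_eq_mul, smul_eq_mul,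
      ← mul_assoc, ← pow_add, add_comm d t, hmc, add_comm m c, pow_add, mul_assoc] at h3
    have h4 : T.χ (γ ^ N) ≠ 0 := by
      intro h5
      have h6 : T.χ (γ ^ N * (γ ^ N)⁻¹) = 0 := by rw [map_mul, h5, zero_mul]
      rw [mul_inv_cancel, map_one] at h6
      exact one_ne_zero h6
    have h7 := mul_left_cancel₀ (pow_ne_zero c h4) h3
    simp only [pow_apply T.ι T.ρ γ hT.apply_eq] at h7
    rw [map_pow, hT.char_eq, ← pow_mul, mul_comm N m] at h7
    exact h7
  obtain ⟨n, a, g, hg, h⟩ := multilinear B X T.ι w q hT.ne_zero hT.lt_one π hT.shimuraTaniyama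
    N m hN hcard (Pool.Agent.H204R3.GP.formOf T.ω f) hA
  refine ⟨n, a, g, hg, fun x y => ?_⟩
  have h1 := h (Sum.elim x y)
  rw [Pool.Agent.H204R3.GP.formOf_apply] at h1
  refine Eq.trans ?_ (h1.trans ?_)
  · rfl
  · refine Finset.sum_congr rfl fun i _ => ?_
    rw [Algebra.smul_def, eq_ratCast, mul_comm]

end

end Pool.Agent.W530.NF
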